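import Mathlib
import Pool.Agent.U892.PD.Stm

/-!
Project PD (helper892), package GLOB (helper446): one pencil on the connected set.
-/

set_option autoImplicit false

open Filter Topology Set
open scoped ContDiff

namespace Pool.Agent.U446.PD

open Pool.Agent.U892.PD

theorem quad_comb (l m : ℝ) (Q R : Fin 6 → ℝ) (p : ℝ × ℝ) :
    quad (l • Q + m • R) p = l * quad Q p + m * quad R p := by
  simp only [quad, Pi.add_apply, Pi.smul_apply, smul_eq_mul]
  ring

theorem quad_smul (c : ℝ) (Q : Fin 6 → ℝ) (p : ℝ × ℝ) : quad (c • Q) p = c * quad Q p := by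
  simp only [quad, Pi.smul_apply, smul_eq_mul]
  ring

/-- a quadratic polynomial which vanishes on an open set is zero -/
theorem quad_zero (R : Fin 6 → ℝ) (q : ℝ × ℝ) (U : Set (ℝ × ℝ)) (hU : U ∈ 𝓝 q)
    (h : ∀ p ∈ U, quad R p = 0) : R = 0 := by
  obtain ⟨r, hr, hball⟩ := Metric.mem_nhds_iff.1 hU
  have key : ∀ s t : ℝ, |s| < r → |t| < r → quad R (q.1 + s, q.2 + t) = 0 := by
    intro s t hs ht
    apply h
    apply hball
    rw [Metric.mem_ball, Prod.dist_eq, max_lt_iff, Real.dist_eq, Real.dist_eq]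
    constructor
    · simpa using hs
    · simpa using ht
  set k : ℝ := r / 2 with hk
  have hk0 : 0 < k := by rw [hk]; linarith
  have hkr : |k| < r := by
    rw [abs_of_pos hk0, hk]
    linarith
  have hkr' : |-k| < r := by rwa [abs_neg]
  have h0r : |(0 : ℝ)| < r := by simpa using hr
  have e0 := key 0 0 h0r h0r
  have e1 := key k 0 hkr h0r
  have e2 := key (-k) 0 hkr' h0r
  have e3 := key 0 k h0r hkr
  have e4 := key 0 (-k) h0r hkr'
  have e5 := key k k hkr hkr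
  simp only [quad] at e0 e1 e2 e3 e4 e5
  have hk2 : k ^ 2 ≠ 0 := by positivity
  have r3 : R 3 = 0 := by
    have : R 3 * k ^ 2 = 0 := by linear_combination (e1 + e2) / 2 - e0
    exact (mul_eq_zero.1 this).resolve_right hk2
  have r5 : R 5 = 0 := by
    have : R 5 * k ^ 2 = 0 := by linear_combination (e3 + e4) / 2 - e0
    exact (mul_eq_zero.1 this).resolve_right hk2
  have r4 : R 4 = 0 := by
    have : R 4 * k ^ 2 = 0 := by linear_combination e5 - e1 - e3 + e0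
    exact (mul_eq_zero.1 this).resolve_right hk2
  have r1 : R 1 = 0 := by
    have : R 1 * k = 0 := by
      rw [r3, r4, r5] at e1 e2
      linear_combination (e1 - e2) / 2
    exact (mul_eq_zero.1 this).resolve_right hk0.ne'
  have r2 : R 2 = 0 := by
    have : R 2 * k = 0 := by
      rw [r3, r4, r5] at e3 e4
      linear_combination (e3 - e4) / 2
    exact (mul_eq_zero.1 this).resolve_right hk0.ne'
  have r0 : R 0 = 0 := by
    rw [r1, r2, r3, r4, r5] at e0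
    linear_combination e0
  funext i
  fin_cases i
  · exact r0
  · exact r1
  · exact r2
  · exact r3
  · exact r4
  · exact r5

/-- the pencil, as a plane of polynomials -/
noncomputable def pen (Q : Fin 2 → (Fin 6 → ℝ)) : Submodule ℝ (Fin 6 → ℝ) :=
  Submodule.span ℝ (Set.range Q)

theorem mem_pen (Q R : Fin 6 → ℝ) (l m : ℝ) : l • Q + m • R ∈ pen ![Q, R] := by
  refine Submodule.add_mem _ (Submodule.smul_mem _ _ ?_) (Submodule.smul_mem _ _ ?_)
  · exact Submodule.subset_span ⟨0, rfl⟩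
  · exact Submodule.subset_span ⟨1, rfl⟩

theorem of_mem_pen (Q R X : Fin 6 → ℝ) (h : X ∈ pen ![Q, R]) : ∃ l m : ℝ, l • Q + m • R = X := by
  have h1 : Set.range (![Q, R] : Fin 2 → (Fin 6 → ℝ)) = {Q, R} := by
    ext x
    simp only [Set.mem_range, Fin.exists_fin_two, Set.mem_insert_iff, Set.mem_singleton_iff]
    constructor
    · rintro (h | h)
      · exact Or.inl h.symm
      · exact Or.inr h.symm
    · rintro (h | h)
      · exact Or.inl h.symm
      · exact Or.inr h.symm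
  unfold pen at h
  rw [h1, Submodule.mem_span_pair] at h
  exact h

theorem comb_ne (Q R : Fin 6 → ℝ) (hli : LinearIndependent ℝ ![Q, R]) (l m : ℝ)
    (h : l ≠ 0 ∨ m ≠ 0) : l • Q + m • R ≠ 0 := by
  intro h0
  have h1 := LinearIndependent.pair_iff.1 hli l m h0
  rcases h with h' | h'
  · exact h' h1.1
  · exact h' h1.2

theorem pen_eq (Q R X Y : Fin 6 → ℝ) (h1 : LinearIndependent ℝ ![Q, R])
    (h2 : LinearIndependent ℝ ![X, Y]) (hX : X ∈ pen ![Q, R]) (hY : Y ∈ pen ![Q, R]) :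
    pen ![X, Y] = pen ![Q, R] := by
  apply Submodule.eq_of_le_of_finrank_eq
  · unfold pen
    rw [Submodule.span_le]
    rintro _ ⟨i, rfl⟩
    fin_cases i
    · exact hX
    · exact hY
  · unfold pen
    rw [finrank_span_eq_card h1, finrank_span_eq_card h2]

/-- the pencil is determined by the leaves near a point -/
theorem uniq (hUNIQ : S_UNIQ) (Ω : Set (ℝ × ℝ)) (F : ℝ × ℝ → ℝ) (hF : Foliation Ω F) (q : ℝ × ℝ)
    (hq : q ∈ Ω) (Q₁ Q₂ R₁ R₂ : Fin 6 → ℝ) (hQ : LinearIndependent ℝ ![Q₁, Q₂])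
    (hR : LinearIndependent ℝ ![R₁, R₂]) (hlQ : LocPencil F q Q₁ Q₂)
    (hlR : LocPencil F q R₁ R₂) : pen ![Q₁, Q₂] = pen ![R₁, R₂] := by
  obtain ⟨V, hV, hV'⟩ := hlQ
  obtain ⟨V₂, hV₂, hV₂'⟩ := hlR
  have hN : V ∩ V₂ ∩ Ω ∈ 𝓝 q := inter_mem (inter_mem hV hV₂) (hF.isOpen.mem_nhds hq)
  obtain ⟨U, hUs, hUo, hqU⟩ := mem_nhds_iff.1 hN
  -- at every point of `U` there is a common member of the two pencils which vanishes on the leaf
  have common : ∀ p ∈ U, ∃ X : Fin 6 → ℝ, X ≠ 0 ∧ quad X p = 0 ∧ X ∈ pen ![Q₁, Q₂] ∧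
      X ∈ pen ![R₁, R₂] := by
    intro p hp
    have hpV : p ∈ V := (hUs hp).1.1
    have hpV₂ : p ∈ V₂ := (hUs hp).1.2
    have hpΩ : p ∈ Ω := (hUs hp).2
    obtain ⟨l, m, hlm, h1⟩ := hV' p hpV
    obtain ⟨l', m', hlm', h2⟩ := hV₂' p hpV₂
    have hA := comb_ne Q₁ Q₂ hQ l m hlm
    have hB := comb_ne R₁ R₂ hR l' m' hlm'
    obtain ⟨c, hc⟩ := hUNIQ Ω F hF p hpΩ (l • Q₁ + m • Q₂) (l' • R₁ + m' • R₂) hA
      (by
        filter_upwards [hUo.mem_nhds hp] with p' hp' he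
        rw [quad_comb]
        exact h1 p' (hUs hp').1.1 he)
      (by
        filter_upwards [hUo.mem_nhds hp] with p' hp' he
        rw [quad_comb]
        exact h2 p' (hUs hp').1.2 he)
    refine ⟨l' • R₁ + m' • R₂, hB, ?_, ?_, mem_pen R₁ R₂ l' m'⟩
    · rw [quad_comb]
      exact h2 p hpV₂ rfl
    · rw [hc]
      exact Submodule.smul_mem _ _ (mem_pen Q₁ Q₂ l m)
  obtain ⟨X, hX0, -, hXQ, hXR⟩ := common q hqU
  obtain ⟨p, hpU, hp⟩ : ∃ p ∈ U, quad X p ≠ 0 := by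
    by_contra hcon
    push Not at hcon
    exact hX0 (quad_zero X q U (hUo.mem_nhds hqU) hcon)
  obtain ⟨Y, hY0, hYp, hYQ, hYR⟩ := common p hpU
  have hXY : LinearIndependent ℝ ![X, Y] := by
    rw [LinearIndependent.pair_iff]
    intro s t hst
    have h1 : quad (s • X + t • Y) p = 0 := by
      rw [hst]
      simp [quad]
    rw [quad_comb, hYp, mul_zero, add_zero] at h1
    have hs : s = 0 := (mul_eq_zero.1 h1).resolve_right hp
    rw [hs, zero_smul, zero_add] at hst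
    exact ⟨hs, (smul_eq_zero.1 hst).resolve_right hY0⟩
  rw [← pen_eq Q₁ Q₂ X Y hQ hXY hXQ hYQ, ← pen_eq R₁ R₂ X Y hR hXY hXR hYR]

theorem t_GLOB : S_GLOB := by
  intro hUNIQ Ω F hF hconn hloc
  choose! Q₁ Q₂ hli hpen using hloc
  obtain ⟨q₀, hq₀⟩ := hconn.nonempty
  have hpc : PreconnectedSpace Ω := isPreconnected_iff_preconnectedSpace.1 hconn.isPreconnected
  have hS : IsLocallyConstant (fun q : Ω => pen ![Q₁ q, Q₂ q]) := by
    rw [IsLocallyConstant.iff_eventually_eq]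
    rintro ⟨q, hq⟩
    obtain ⟨V, hV, hV'⟩ := hpen q hq
    have h1 : ∀ᶠ q' in 𝓝 q, V ∈ 𝓝 q' := eventually_mem_nhds_iff.2 hV
    have h2 : ∀ᶠ q' : Ω in 𝓝 (⟨q, hq⟩ : Ω), V ∈ 𝓝 (q' : ℝ × ℝ) :=
      (continuous_subtype_val.tendsto (⟨q, hq⟩ : Ω)).eventually h1
    filter_upwards [h2] with q' hq'
    exact uniq hUNIQ Ω F hF q' q'.2 _ _ _ _ (hli q' q'.2) (hli q hq) (hpen q' q'.2)
      ⟨V, hq', hV'⟩
  refine ⟨Q₁ q₀, Q₂ q₀, hli q₀ hq₀, ?_⟩
  intro q hq
  have hcst : pen ![Q₁ q, Q₂ q] = pen ![Q₁ q₀, Q₂ q₀] :=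
    hS.apply_eq_of_preconnectedSpace ⟨q, hq⟩ ⟨q₀, hq₀⟩
  obtain ⟨V, hV, hV'⟩ := hpen q hq
  refine ⟨V, hV, fun p hp => ?_⟩
  obtain ⟨l, m, hlm, h1⟩ := hV' p hp
  have h2 : l • Q₁ q + m • Q₂ q ∈ pen ![Q₁ q₀, Q₂ q₀] := by
    rw [← hcst]
    exact mem_pen _ _ l m
  obtain ⟨l', m', h3⟩ := of_mem_pen _ _ _ h2
  refine ⟨l', m', ?_, ?_⟩
  · by_contra hcon
    push Not at hcon
    rw [hcon.1, hcon.2, zero_smul, zero_smul, add_zero] at h3
    exact comb_ne _ _ (hli q hq) l m hlm h3.symm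
  · intro p' hp' he
    rw [← quad_comb, h3, quad_comb]
    exact h1 p' hp' he

end Pool.Agent.U446.PD
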